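import Pool.Agent.H95.HC.Defs
import Pool.Agent.H95.WC.Murre

/-!
# Cohomology with compact supports and coverings of affine spaces
-/

set_option autoImplicit false

open CategoryTheory CategoryTheory.Limits AlgebraicGeometry Pool.Agent.Y116.UV Pool.Agent.Z125.UN
  Pool.Agent.Q193.LT Pool.Agent.W5h68.SP Pool.Agent.H95.DC Pool.Agent.H95.WC

universe v u

namespace Pool.Agent.H95.HC

variable {k : Type} [Field k] {M : Type u} [Category.{v} M] [Abelian M] {D : CompactData k M}
  {S : M → Prop}

lemma serre_retract (hS : IsTateSerre D S) {X Y : M} (s : X ⟶ Y) (r : Y ⟶ X) (h : s ≫ r = 𝟙 X)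
    (hY : S Y) : S X := by
  have : Mono s := mono_of_mono_fac h
  exact hS.toIsSerre.of_mono s hY

/-- The schemes whose cohomology with compact supports is in a Serre class. -/
theorem covC_coh (hD : IsFlatMotives D) (hS : IsTateSerre D S) (h1 : ∀ n, S (D.H n (aff k k))) :
    CovC fun X : Sch k => ∀ n, S (D.H n X) := by
  have hF : Fla True fun X : Sch k => ∀ n, S (D.H n X) :=
    { toBnd := bnd_compact hD.compact hS h1
      clopen := fun i hX hc ho h n => by
        obtain ⟨s, r, hs⟩ := hD.clopen i hX hc ho n
        exact serre_retract hS s r hs (h n)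
      fibres := fun q r hV hX hq hr => by
        constructor
        · intro h n
          obtain ⟨e⟩ := hD.fibres q r hV hX hq hr n
          exact hS.toIsSerre.iso e.symm (hS.twist _ _ (h _))
        · intro h n
          obtain ⟨e⟩ := hD.fibres q r hV hX hq hr (n + 2 * r)
          have h2 := hS.untwist hD.compact _ _ (hS.toIsSerre.iso e (h _))
          rwa [add_sub_cancel_right] at h2 }
  exact
    { toCovPN := covPN_of_covP (covP_of_fla hF)
      cyclic := fun A _ _ _ d u hd hu h n => by
        obtain ⟨s, r, hs⟩ := hD.cyclic A d u hd hu n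
        exact serre_retract hS s r hs (h n) }

/-- The point is a direct factor of the coverings. -/
lemma point_covering (hD : IsFlatMotives D) {T : Finset k} (hT : T.Nonempty) (m : ℕ) (i : ℤ) :
    FactorOfSum D (OfCoverings D T m) (D.H i (aff k k)) := by
  have hS : IsTateSerre D (FactorOfSum D (OfCoverings D T m)) :=
    gen_serre hD.compact hD.semisimple
  refine point_of_cov (P := fun X => ∀ i, FactorOfSum D (OfCoverings D T m) (D.H i X)) ?_ ?_ T hT m
    (fun a b c t hc i => FactorOfSum.self hD.compact ⟨a, b, c, t, i, hc, rfl⟩) i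
  · intro X Y hX e h n
    obtain ⟨e'⟩ := hD.compact.iso hX e n
    exact hS.toIsSerre.iso e' (h n)
  · intro Z X i hX hc ho h n
    obtain ⟨s, r, hs⟩ := hD.clopen i hX hc ho n
    exact serre_retract hS s r hs (h n)

variable [PerfectField k]

/-- **The cohomology of the schemes in `CBuilt n` is generated by smooth projective schemes of dimension
at most `n`.** -/
theorem built_factor (hD : IsFlatMotives D) {n : ℕ} {X : Sch k} (hX : CBuilt n X) (i : ℤ) :
    FactorOfSum D (OfProj D n) (D.H i X) := by
  have hS : IsTateSerre D (FactorOfSum D (OfProj D n)) := gen_serre hD.compact hD.semisimple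
  have h1 : ∀ Y : Sch k, SmoothProj Y → topologicalKrullDim Y.left ≤ n →
      ∀ i, FactorOfSum D (OfProj D n) (D.H i Y) := fun Y hY hn i =>
    FactorOfSum.self hD.compact ⟨Y, i, hY, hn, rfl⟩
  have h0 := point_factor hD.compact hD.generated hD.semisimple n h1
  exact of_cbuilt (covC_coh hD hS h0) (fun Y hY hn => hD.generated n _ hS h1 Y hY hn) X hX i

/-- **The cohomology of the smooth projective schemes of dimension at most `n` is generated by the
coverings with at most `n + 2` variables `z`.** -/
theorem proj_factor (hD : IsFlatMotives D) {T : Finset k} (hT : 2 ≤ T.card) {n : ℕ} {X : Sch k}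
    (hX : FT True X) (hn : topologicalKrullDim X.left ≤ n) (i : ℤ) :
    FactorOfSum D (OfCoverings D T (n + 2)) (D.H i X) := by
  have hS : IsTateSerre D (FactorOfSum D (OfCoverings D T (n + 2))) :=
    gen_serre hD.compact hD.semisimple
  have h0 := point_covering hD (Finset.card_pos.mp (by omega) : T.Nonempty) (n + 2)
  exact (dim_cov (covP_of_covPN (covC_coh hD hS h0).toCovPN) T hT n).mpr
    (fun a b c t hc i => FactorOfSum.self hD.compact ⟨a, b, c, t, i, hc, rfl⟩) X hX hn i

lemma covering_factor (hD : IsFlatMotives D) {T : Finset k} (hT : T.Nonempty) {n : ℕ} {N : M}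
    (hN : OfCoverings D T (n + 2) N) : FactorOfSum D (OfProj D n) N := by
  obtain ⟨a, b, c, t, i, hc, rfl⟩ := hN
  exact built_factor hD ((covMembers (k := k)).forms n T hT a b c t hc) i

variable {P : M → Prop} (hP : ∀ {X Y : M} (i : X ⟶ Y) (r : Y ⟶ X), i ≫ r = 𝟙 X → P Y → P X)

include hP

/-- Finite direct sums: smooth projective schemes of dimension at most `n` and coverings. -/
theorem sums_coverings (hD : IsFlatMotives D) {T : Finset k} (hT : 2 ≤ T.card) (n : ℕ) :
    SumsHave D (OfProj D n) P ↔ SumsHave D (OfCoverings D T (n + 2)) P := by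
  constructor
  · exact sumsHave_of_gen hD.compact hD.semisimple hP fun N hN =>
      covering_factor hD (Finset.card_pos.mp (by omega)) hN
  · refine sumsHave_of_gen hD.compact hD.semisimple hP fun N hN => ?_
    obtain ⟨Y, i, hY, hn, rfl⟩ := hN
    exact proj_factor hD hT hY.ft hn i

/-- Finite direct sums: smooth projective schemes of dimension at most `n` and the class `CBuilt n`. -/
theorem sums_built (hD : IsFlatMotives D) (n : ℕ) :
    SumsHave D (OfProj D n) P ↔ SumsHave D (OfBuilt D n) P := by
  constructor
  · refine sumsHave_of_gen hD.compact hD.semisimple hP fun N hN => ?_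
    obtain ⟨X, i, hX, rfl⟩ := hN
    exact built_factor hD hX i
  · refine sumsHave_of_gen hD.compact hD.semisimple hP fun N hN => ?_
    obtain ⟨Y, i, hY, hn, rfl⟩ := hN
    exact FactorOfSum.self hD.compact ⟨Y, i, .dim Y hY.ft hn, rfl⟩

end Pool.Agent.H95.HC
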