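import Pool.Agent.H95.M.Q193_LT_Sums
import Pool.Agent.H95.M.Q193_LT_Crit
import Pool.Agent.H95.WC.Defs

/-!
# Cohomology with compact supports and coverings of affine spaces: definitions
-/

set_option autoImplicit false

open CategoryTheory CategoryTheory.Limits AlgebraicGeometry Pool.Agent.Y116.UV Pool.Agent.Q193.LT
  Pool.Agent.W5h68.SP Pool.Agent.H95.DC Pool.Agent.H95.WC

universe v u

namespace Pool.Agent.H95.HC

variable {k : Type} [Field k] {M : Type u} [Category.{v} M]

/-- What is used about a category of motives over the field `k` and the graded objects `D.H i X` of the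
weight filtration of the cohomology with compact supports, besides `IsMotives`: the cohomology of an open
and closed subscheme of `X` is a direct factor of the cohomology of `X`; if `q : V ⟶ S` is flat and all
its fibres are affine spaces of dimension `r`, then `H^n_c(V) = H^{n - 2 r}_c(S)(-r)` (proper base change
and the trace morphism); and for the coverings `s ^ d = u` of `Spec A`, `u` a unit, the cohomology of
`Spec A` is a direct factor of the cohomology of the covering. -/
structure IsFlatMotives [Abelian M] (D : CompactData k M) : Prop extends IsMotives D where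
  clopen : ∀ {Z X : Sch k} (i : Z ⟶ X), FT True X → IsClosedImmersion i.left →
    IsOpenImmersion i.left → ∀ n, ∃ (s : D.H n Z ⟶ D.H n X) (r : D.H n X ⟶ D.H n Z), s ≫ r = 𝟙 _
  fibres : ∀ {V S : Sch k} (q : V ⟶ S) (r : ℕ), FT True V → FT True S → Flat q.left →
    AffineFibres q.left r → ∀ n, Nonempty (D.H n V ≅ (D.tw (-r)).obj (D.H (n - 2 * r) S))
  cyclic : ∀ (A : Type) [CommRing A] [Algebra k A] [Algebra.FiniteType k A] (d : ℕ) (u : A), 0 < d →
    IsUnit u → ∀ n, ∃ (s : D.H n (aff k A) ⟶ D.H n (aff k (Cyc A d u)))
      (r : D.H n (aff k (Cyc A d u)) ⟶ D.H n (aff k A)), s ≫ r = 𝟙 _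

/-- The objects `H^i_c(X)` for the coverings `X : ∏_{c ∈ S} (w - c) = t(x, y, z)` of affine spaces over
`k`, for all trilinear forms `t` over `k` with at most `m` variables `z`. -/
def OfCoverings (D : CompactData k M) (S : Finset k) (m : ℕ) (N : M) : Prop :=
  ∃ (a b c : ℕ) (t : Fin a → Fin b → Fin c → k) (i : ℤ), c ≤ m ∧ N = D.H i (covS S (bq t))

/-- The objects `H^i_c(X)` for the schemes `X` in the class `CBuilt n`. -/
def OfBuilt (D : CompactData k M) (n : ℕ) (N : M) : Prop :=
  ∃ (X : Sch k) (i : ℤ), CBuilt n X ∧ N = D.H i X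

end Pool.Agent.H95.HC
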